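import Pool.Agent.Helper98.EX.Stmts

/-!
# ex_mods.QHIT: L2 decay of the killed chain in a closed window
-/

namespace Pool.Agent.Helper98.EX

open Finset

section qhit

variable {N : ℕ}

/-- splitting off two neighbouring sites -/
theorem qhit_split {M : Type*} [CommMonoid M] (F : ℕ → M) {A B b : ℕ} (h1 : A < b) (h2 : b < B) :
    ∏ i ∈ Finset.Ico A B, F i = (∏ i ∈ Finset.Ico A (b - 1), F i) *
      (F (b - 1) * (F b * ∏ i ∈ Finset.Ico (b + 1) B, F i)) := by
  have e : b - 1 + 1 = b := by omega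
  rw [← Finset.prod_Ico_consecutive F (show A ≤ b - 1 by omega) (show b - 1 ≤ B by omega),
    Finset.prod_eq_prod_Ico_succ_bot (show b - 1 < B by omega), e,
    Finset.prod_eq_prod_Ico_succ_bot h2]

/-- weight of one site -/
noncomputable def qhit_w (r l : ℕ → ℝ) (x0 i : ℕ) (b : Bool) : ℝ :=
  if i < x0 then (if b = true then RR r l i x0 else 1) else (if b = true then 1 else RR r l x0 i)

theorem qhit_pw (r l : ℕ → ℝ) {A x0 B : ℕ} (h1 : A ≤ x0) (h2 : x0 ≤ B) (η : Cfg N) :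
    pw r l A x0 B η = ∏ i ∈ Finset.Ico A B, qhit_w r l x0 i (occ η i) := by
  unfold pw
  rw [← Finset.prod_Ico_consecutive _ h1 h2]
  congr 1
  · apply Finset.prod_congr rfl
    intro i hi
    rw [Finset.mem_Ico] at hi
    unfold qhit_w
    rw [if_pos hi.2]
  · apply Finset.prod_congr rfl
    intro i hi
    rw [Finset.mem_Ico] at hi
    unfold qhit_w
    rw [if_neg (show ¬ i < x0 by omega)]

theorem qhit_RR_pred (r l : ℕ → ℝ) {b x : ℕ} (h : 1 ≤ b) (hx : b ≤ x) :
    RR r l (b - 1) x = l b / r b * RR r l b x := by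
  unfold RR
  rw [← Finset.prod_Ioc_consecutive (fun b => l b / r b) (show b - 1 ≤ b by omega) hx]
  have e : Finset.Ioc (b - 1) b = {b} := by
    ext i
    rw [Finset.mem_Ioc, Finset.mem_singleton]
    omega
  rw [e, Finset.prod_singleton]

theorem qhit_RR_succ (r l : ℕ → ℝ) {b x : ℕ} (hx : x < b) :
    RR r l x b = RR r l x (b - 1) * (l b / r b) := by
  unfold RR
  rw [← Finset.prod_Ioc_consecutive (fun b => l b / r b) (show x ≤ b - 1 by omega)
    (show b - 1 ≤ b by omega)]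
  have e : Finset.Ioc (b - 1) b = {b} := by
    ext i
    rw [Finset.mem_Ioc, Finset.mem_singleton]
    omega
  rw [e, Finset.prod_singleton]

theorem qhit_RR_self (r l : ℕ → ℝ) (x : ℕ) : RR r l x x = 1 := by
  unfold RR
  rw [Finset.Ioc_self, Finset.prod_empty]

theorem qhit_local (r l : ℕ → ℝ) {x0 b : ℕ} (hb : 1 ≤ b) (hr : r b ≠ 0) :
    qhit_w r l x0 (b - 1) false * qhit_w r l x0 b true * l b =
      qhit_w r l x0 (b - 1) true * qhit_w r l x0 b false * r b := by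
  unfold qhit_w
  rcases lt_trichotomy b x0 with h | h | h
  · rw [if_pos (show b - 1 < x0 by omega), if_pos h, if_pos (show b - 1 < x0 by omega),
      if_pos h, qhit_RR_pred r l hb h.le]
    simp only [Bool.false_eq_true, if_false, if_true]
    field_simp
  · subst h
    rw [if_pos (show b - 1 < b by omega), if_neg (lt_irrefl b),
      if_pos (show b - 1 < b by omega), if_neg (lt_irrefl b), qhit_RR_pred r l hb le_rfl,
      qhit_RR_self]
    simp only [Bool.false_eq_true, if_false, if_true]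
    field_simp
  · rw [if_neg (show ¬ b - 1 < x0 by omega), if_neg (show ¬ b < x0 by omega),
      if_neg (show ¬ b - 1 < x0 by omega), if_neg (show ¬ b < x0 by omega),
      qhit_RR_succ r l h]
    simp only [Bool.false_eq_true, if_false, if_true]
    field_simp

/-- detailed balance -/
theorem qhit_db (r l : ℕ → ℝ) {A x0 B b : ℕ} (h1 : A ≤ x0) (h2 : x0 ≤ B) (hb1 : A < b)
    (hb2 : b < B) (hB : B ≤ N) (hr : r b ≠ 0) (η : Cfg N) (o1 : occ η (b - 1) = true)
    (o2 : occ η b = false) :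
    pw r l A x0 B (swp b η) * l b = pw r l A x0 B η * r b := by
  rw [qhit_pw r l h1 h2, qhit_pw r l h1 h2, qhit_split _ hb1 hb2, qhit_split _ hb1 hb2]
  have hb : 1 ≤ b := by omega
  have hbN : b < N := by omega
  have e1 : ∏ i ∈ Finset.Ico A (b - 1), qhit_w r l x0 i (occ (swp b η) i) =
      ∏ i ∈ Finset.Ico A (b - 1), qhit_w r l x0 i (occ η i) := by
    apply Finset.prod_congr rfl
    intro i hi
    rw [Finset.mem_Ico] at hi
    rw [occ_swp_ne hb hbN η (by omega) (by omega)]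
  have e2 : ∏ i ∈ Finset.Ico (b + 1) B, qhit_w r l x0 i (occ (swp b η) i) =
      ∏ i ∈ Finset.Ico (b + 1) B, qhit_w r l x0 i (occ η i) := by
    apply Finset.prod_congr rfl
    intro i hi
    rw [Finset.mem_Ico] at hi
    rw [occ_swp_ne hb hbN η (by omega) (by omega)]
  rw [e1, e2, occ_swp_pred hb hbN, occ_swp_self hb hbN, o1, o2]
  have h := qhit_local r l (x0 := x0) hb hr
  calc _ = (∏ i ∈ Finset.Ico A (b - 1), qhit_w r l x0 i (occ η i)) *
        (∏ i ∈ Finset.Ico (b + 1) B, qhit_w r l x0 i (occ η i)) *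
        (qhit_w r l x0 (b - 1) false * qhit_w r l x0 b true * l b) := by ring
    _ = _ := by rw [h]; ring

theorem qhit_swp_swp {b : ℕ} (hb : 1 ≤ b) (hbN : b < N) (η : Cfg N) :
    swp b (swp b η) = η := by
  apply cfg_ext
  intro i _
  rw [occ_swp hb hbN]
  split_ifs with h1 h2
  · rw [occ_swp_pred hb hbN, h1]
  · rw [occ_swp_self hb hbN]
    congr 1
    omega
  · rw [occ_swp_ne hb hbN η h1 h2]

theorem qhit_cnt {A B b : ℕ} (hb1 : A < b) (hb2 : b < B) (hB : B ≤ N) (η : Cfg N) :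
    cnt (swp b η) A B = cnt η A B := by
  have a1 := ht_cnt (swp b η) (show A ≤ B by omega) hB
  have a2 := ht_cnt η (show A ≤ B by omega) hB
  have a3 := ht_swp (show 1 ≤ b by omega) (show b < N by omega) η A (by omega)
  have a4 := ht_swp (show 1 ≤ b by omega) (show b < N by omega) η B (by omega)
  omega

theorem qhit_mem {A x0 B b : ℕ} (hb1 : A < b) (hb2 : b < B) (hB : B ≤ N) {η0 ξ : Cfg N}
    (h : ξ ∈ XW A x0 B η0) : swp b ξ ∈ XW A x0 B η0 := by
  unfold XW at h ⊢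
  rw [Finset.mem_filter] at h ⊢
  refine ⟨Finset.mem_univ _, ?_, ?_⟩
  · rw [qhit_cnt hb1 hb2 hB, h.2.1]
  · intro i hi hi2
    rw [occ_swp_ne (by omega) (by omega) ξ (by omega) (by omega)]
    exact h.2.2 i hi hi2

/-- exchange lemma -/
theorem qhit_exch (r l : ℕ → ℝ) {A x0 B b : ℕ} (h1 : A ≤ x0) (h2 : x0 ≤ B) (hb1 : A < b)
    (hb2 : b < B) (hB : B ≤ N) (hr : r b ≠ 0) (η0 : Cfg N) (φ : Cfg N → Cfg N → ℝ)
    (hφ : ∀ a, φ a a = 0) :
    ∑ ξ ∈ XW A x0 B η0, pw r l A x0 B ξ * (l b * φ ξ (Lm b ξ)) =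
      ∑ ξ ∈ XW A x0 B η0, pw r l A x0 B ξ * (r b * φ (Rm b ξ) ξ) := by
  have hb : 1 ≤ b := by omega
  have hbN : b < N := by omega
  symm
  refine Finset.sum_nbij' (fun ξ => swp b ξ) (fun ξ => swp b ξ)
    (fun ξ hξ => qhit_mem hb1 hb2 hB hξ) (fun ξ hξ => qhit_mem hb1 hb2 hB hξ)
    (fun ξ _ => qhit_swp_swp hb hbN ξ) (fun ξ _ => qhit_swp_swp hb hbN ξ) ?_
  intro ξ _
  by_cases h : occ ξ (b - 1) = true ∧ occ ξ b = false
  · have e1 : Rm b ξ = swp b ξ := by
      unfold Rm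
      rw [if_pos ⟨hb, hbN, h.1, h.2⟩]
    have e2 : Lm b (swp b ξ) = ξ := by
      unfold Lm
      rw [if_pos ⟨hb, hbN, by rw [occ_swp_pred hb hbN]; exact h.2,
        by rw [occ_swp_self hb hbN]; exact h.1⟩, qhit_swp_swp hb hbN]
    rw [e1, e2]
    have e3 := qhit_db r l h1 h2 hb1 hb2 hB hr ξ h.1 h.2
    calc pw r l A x0 B ξ * (r b * φ (swp b ξ) ξ)
        = (pw r l A x0 B ξ * r b) * φ (swp b ξ) ξ := by ring
      _ = _ := by rw [← e3]; ring
  · have e1 : Rm b ξ = ξ := by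
      unfold Rm
      rw [if_neg (by tauto)]
    have e2 : Lm b (swp b ξ) = swp b ξ := by
      unfold Lm
      rw [if_neg]
      rintro ⟨_, _, h3, h4⟩
      rw [occ_swp_pred hb hbN] at h3
      rw [occ_swp_self hb hbN] at h4
      exact h ⟨h4, h3⟩
    rw [e1, e2, hφ, hφ]
    ring

/-- the generator at one bond -/
noncomputable def qhit_G (r l : ℕ → ℝ) (b : ℕ) (f : Cfg N → ℝ) (ξ : Cfg N) : ℝ :=
  r b * (f (Rm b ξ) - f ξ) + l b * (f (Lm b ξ) - f ξ)

theorem qhit_energy (r l : ℕ → ℝ) {A x0 B b : ℕ} (h1 : A ≤ x0) (h2 : x0 ≤ B) (hb1 : A < b)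
    (hb2 : b < B) (hB : B ≤ N) (hr : r b ≠ 0) (η0 : Cfg N) (f : Cfg N → ℝ) :
    ∑ ξ ∈ XW A x0 B η0, pw r l A x0 B ξ * (f ξ * qhit_G r l b f ξ) =
      - ∑ ξ ∈ XW A x0 B η0, pw r l A x0 B ξ * (r b * (f (Rm b ξ) - f ξ) ^ 2) := by
  have e := qhit_exch r l h1 h2 hb1 hb2 hB hr η0 (fun a c => f a * (f c - f a))
    (fun a => by ring)
  have e1 : ∑ ξ ∈ XW A x0 B η0, pw r l A x0 B ξ * (f ξ * qhit_G r l b f ξ) =
      ∑ ξ ∈ XW A x0 B η0, pw r l A x0 B ξ * (f ξ * (r b * (f (Rm b ξ) - f ξ))) +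
      ∑ ξ ∈ XW A x0 B η0, pw r l A x0 B ξ * (l b * (f ξ * (f (Lm b ξ) - f ξ))) := by
    rw [← Finset.sum_add_distrib]
    apply Finset.sum_congr rfl
    intro ξ _
    unfold qhit_G
    ring
  rw [e1, e, ← Finset.sum_add_distrib, ← Finset.sum_neg_distrib]
  apply Finset.sum_congr rfl
  intro ξ _
  ring

theorem qhit_gradL (r l : ℕ → ℝ) {A x0 B b : ℕ} (h1 : A ≤ x0) (h2 : x0 ≤ B) (hb1 : A < b)
    (hb2 : b < B) (hB : B ≤ N) (hr : r b ≠ 0) (η0 : Cfg N) (f : Cfg N → ℝ) :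
    ∑ ξ ∈ XW A x0 B η0, pw r l A x0 B ξ * (l b * (f (Lm b ξ) - f ξ) ^ 2) =
      ∑ ξ ∈ XW A x0 B η0, pw r l A x0 B ξ * (r b * (f (Rm b ξ) - f ξ) ^ 2) := by
  have e := qhit_exch r l h1 h2 hb1 hb2 hB hr η0 (fun a c => (f c - f a) ^ 2)
    (fun a => by ring)
  rw [e]
  apply Finset.sum_congr rfl
  intro ξ _
  ring

theorem qhit_G_sq {r l : ℕ → ℝ} (h : Adm N r l) {b : ℕ} (hb : 1 ≤ b) (hbN : b < N)
    (f : Cfg N → ℝ) (ξ : Cfg N) :
    qhit_G r l b f ξ ^ 2 ≤ r b * (f (Rm b ξ) - f ξ) ^ 2 + l b * (f (Lm b ξ) - f ξ) ^ 2 := by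
  obtain ⟨a1, a2, a3, a4⟩ := h b hb hbN
  unfold qhit_G
  by_cases o : occ ξ (b - 1) = true
  · have e : Lm b ξ = ξ := by
      unfold Lm
      rw [if_neg]
      rintro ⟨_, _, h3, _⟩
      rw [o] at h3
      exact absurd h3 (by simp)
    rw [e]
    have : 0 ≤ (f (Rm b ξ) - f ξ) ^ 2 := sq_nonneg _
    nlinarith [mul_nonneg (mul_nonneg a1.le (sub_nonneg.2 a2)) this]
  · have e : Rm b ξ = ξ := by
      unfold Rm
      rw [if_neg]
      rintro ⟨_, _, h3, _⟩
      exact o h3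
    rw [e]
    have : 0 ≤ (f (Lm b ξ) - f ξ) ^ 2 := sq_nonneg _
    nlinarith [mul_nonneg (mul_nonneg a3 (sub_nonneg.2 a4)) this]

theorem qhit_RR_nonneg {r l : ℕ → ℝ} (h : Adm N r l) {z x : ℕ} (hx : x < N) :
    0 ≤ RR r l z x := by
  unfold RR
  apply Finset.prod_nonneg
  intro b hb
  rw [Finset.mem_Ioc] at hb
  obtain ⟨a1, _, a3, _⟩ := h b (by omega) (by omega)
  exact div_nonneg a3 a1.le

theorem qhit_pw_nonneg {r l : ℕ → ℝ} (h : Adm N r l) {A x0 B : ℕ} (h1 : A ≤ x0) (h2 : x0 < B)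
    (hB : B ≤ N) (ξ : Cfg N) : 0 ≤ pw r l A x0 B ξ := by
  rw [qhit_pw r l h1 h2.le]
  apply Finset.prod_nonneg
  intro i hi
  rw [Finset.mem_Ico] at hi
  unfold qhit_w
  split_ifs
  · exact qhit_RR_nonneg h (by omega)
  · exact zero_le_one
  · exact zero_le_one
  · exact qhit_RR_nonneg h (by omega)

/-- contraction of one step -/
theorem qhit_step {r l : ℕ → ℝ} (h : Adm N r l) {A x0 B : ℕ} (h1 : A ≤ x0) (h2 : x0 < B)
    (hB : B ≤ N) (η0 : Cfg N) (f : Cfg N → ℝ) :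
    ∑ ξ ∈ XW A x0 B η0, pw r l A x0 B ξ * stp r l (Finset.Ioo A B) f ξ ^ 2 ≤
      ∑ ξ ∈ XW A x0 B η0, pw r l A x0 B ξ * f ξ ^ 2 -
      ∑ ξ ∈ XW A x0 B η0, ∑ b ∈ Finset.Ioo A B,
        pw r l A x0 B ξ * (r b / (2 * N)) * (f (Rm b ξ) - f ξ) ^ 2 := by
  have hN : (0 : ℝ) < N := by
    have : 0 < N := by omega
    exact_mod_cast this
  set E := ∑ ξ ∈ XW A x0 B η0, ∑ b ∈ Finset.Ioo A B,
        pw r l A x0 B ξ * (r b / (2 * N)) * (f (Rm b ξ) - f ξ) ^ 2 with hE
  have hst : ∀ ξ : Cfg N, stp r l (Finset.Ioo A B) f ξ =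
      f ξ + (∑ b ∈ Finset.Ioo A B, qhit_G r l b f ξ) / (2 * N) := by
    intro ξ
    rw [stp_open]
    rfl
  -- the cross term
  have hcross : ∑ ξ ∈ XW A x0 B η0, pw r l A x0 B ξ *
      (f ξ * ((∑ b ∈ Finset.Ioo A B, qhit_G r l b f ξ) / (2 * N))) = - E := by
    have e1 : ∑ ξ ∈ XW A x0 B η0, pw r l A x0 B ξ *
        (f ξ * ((∑ b ∈ Finset.Ioo A B, qhit_G r l b f ξ) / (2 * N))) =
        ∑ b ∈ Finset.Ioo A B, (∑ ξ ∈ XW A x0 B η0, pw r l A x0 B ξ *
          (f ξ * qhit_G r l b f ξ)) / (2 * N) := by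
      rw [← Finset.sum_div, Finset.sum_comm, Finset.sum_div]
      apply Finset.sum_congr rfl
      intro ξ _
      rw [← Finset.mul_sum, ← Finset.mul_sum]
      ring
    rw [e1, hE, Finset.sum_comm, ← Finset.sum_neg_distrib]
    apply Finset.sum_congr rfl
    intro b hb
    rw [Finset.mem_Ioo] at hb
    rw [qhit_energy r l h1 h2.le hb.1 hb.2 hB (h b (by omega) (by omega)).1.ne' η0 f,
      neg_div, Finset.sum_div]
    congr 1
    apply Finset.sum_congr rfl
    intro ξ _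
    ring
  -- the quadratic term
  have hquad : ∑ ξ ∈ XW A x0 B η0, pw r l A x0 B ξ *
      ((∑ b ∈ Finset.Ioo A B, qhit_G r l b f ξ) / (2 * N)) ^ 2 ≤ E := by
    have e1 : ∀ ξ : Cfg N, ((∑ b ∈ Finset.Ioo A B, qhit_G r l b f ξ) / (2 * N)) ^ 2 ≤
        (1 / 2) * ∑ b ∈ Finset.Ioo A B, (r b * (f (Rm b ξ) - f ξ) ^ 2 +
          l b * (f (Lm b ξ) - f ξ) ^ 2) / (2 * N) := by
      intro ξ
      have c1 : (∑ b ∈ Finset.Ioo A B, qhit_G r l b f ξ) ^ 2 ≤
          (Finset.Ioo A B).card * ∑ b ∈ Finset.Ioo A B, qhit_G r l b f ξ ^ 2 :=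
        sq_sum_le_card_mul_sum_sq
      have c2 : ∑ b ∈ Finset.Ioo A B, qhit_G r l b f ξ ^ 2 ≤
          ∑ b ∈ Finset.Ioo A B, (r b * (f (Rm b ξ) - f ξ) ^ 2 +
            l b * (f (Lm b ξ) - f ξ) ^ 2) := by
        apply Finset.sum_le_sum
        intro b hb
        rw [Finset.mem_Ioo] at hb
        exact qhit_G_sq h (by omega) (by omega) f ξ
      have c3 : ((Finset.Ioo A B).card : ℝ) ≤ N := by
        rw [Nat.card_Ioo]
        have : B - A - 1 ≤ N := by omega
        exact_mod_cast this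
      have c0 : 0 ≤ ∑ b ∈ Finset.Ioo A B, qhit_G r l b f ξ ^ 2 :=
        Finset.sum_nonneg fun b _ => sq_nonneg _
      have c4 : (∑ b ∈ Finset.Ioo A B, qhit_G r l b f ξ) ^ 2 ≤
          N * ∑ b ∈ Finset.Ioo A B, (r b * (f (Rm b ξ) - f ξ) ^ 2 +
            l b * (f (Lm b ξ) - f ξ) ^ 2) :=
        c1.trans (mul_le_mul c3 c2 c0 hN.le)
      rw [div_pow, ← Finset.sum_div]
      rw [div_le_iff₀ (by positivity)]
      calc (∑ b ∈ Finset.Ioo A B, qhit_G r l b f ξ) ^ 2 ≤ _ := c4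
        _ = _ := by field_simp
    have e2 : ∑ ξ ∈ XW A x0 B η0, pw r l A x0 B ξ *
        ((1 / 2) * ∑ b ∈ Finset.Ioo A B, (r b * (f (Rm b ξ) - f ξ) ^ 2 +
          l b * (f (Lm b ξ) - f ξ) ^ 2) / (2 * N)) = E := by
      have e3 : ∑ ξ ∈ XW A x0 B η0, pw r l A x0 B ξ *
          ((1 / 2) * ∑ b ∈ Finset.Ioo A B, (r b * (f (Rm b ξ) - f ξ) ^ 2 +
            l b * (f (Lm b ξ) - f ξ) ^ 2) / (2 * N)) =
          ∑ b ∈ Finset.Ioo A B, (1 / 2) * ((∑ ξ ∈ XW A x0 B η0, pw r l A x0 B ξ *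
            (r b * (f (Rm b ξ) - f ξ) ^ 2)) + ∑ ξ ∈ XW A x0 B η0, pw r l A x0 B ξ *
            (l b * (f (Lm b ξ) - f ξ) ^ 2)) / (2 * N) := by
        rw [← Finset.sum_div, ← Finset.mul_sum, Finset.sum_add_distrib, Finset.sum_comm,
          Finset.sum_comm (s := Finset.Ioo A B) (f := fun b ξ => pw r l A x0 B ξ *
            (l b * (f (Lm b ξ) - f ξ) ^ 2)), ← Finset.sum_add_distrib, Finset.mul_sum,
          Finset.sum_div]
        apply Finset.sum_congr rfl
        intro ξ _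
        rw [← Finset.mul_sum, ← Finset.mul_sum, ← Finset.sum_div, Finset.sum_add_distrib]
        ring
      rw [e3, hE, Finset.sum_comm]
      apply Finset.sum_congr rfl
      intro b hb
      rw [Finset.mem_Ioo] at hb
      rw [qhit_gradL r l h1 h2.le hb.1 hb.2 hB (h b (by omega) (by omega)).1.ne' η0 f]
      have e4 : (1 / 2 : ℝ) * (∑ ξ ∈ XW A x0 B η0, pw r l A x0 B ξ *
            (r b * (f (Rm b ξ) - f ξ) ^ 2) + ∑ ξ ∈ XW A x0 B η0, pw r l A x0 B ξ *
            (r b * (f (Rm b ξ) - f ξ) ^ 2)) / (2 * N) =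
          (∑ ξ ∈ XW A x0 B η0, pw r l A x0 B ξ * (r b * (f (Rm b ξ) - f ξ) ^ 2)) / (2 * N) := by
        ring
      rw [e4, Finset.sum_div]
      apply Finset.sum_congr rfl
      intro ξ _
      ring
    rw [← e2]
    apply Finset.sum_le_sum
    intro ξ _
    exact mul_le_mul_of_nonneg_left (e1 ξ) (qhit_pw_nonneg h h1 h2 hB ξ)
  have hexp : ∑ ξ ∈ XW A x0 B η0, pw r l A x0 B ξ * stp r l (Finset.Ioo A B) f ξ ^ 2 =
      ∑ ξ ∈ XW A x0 B η0, pw r l A x0 B ξ * f ξ ^ 2 +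
      2 * (∑ ξ ∈ XW A x0 B η0, pw r l A x0 B ξ *
        (f ξ * ((∑ b ∈ Finset.Ioo A B, qhit_G r l b f ξ) / (2 * N)))) +
      ∑ ξ ∈ XW A x0 B η0, pw r l A x0 B ξ *
        ((∑ b ∈ Finset.Ioo A B, qhit_G r l b f ξ) / (2 * N)) ^ 2 := by
    rw [Finset.mul_sum, ← Finset.sum_add_distrib, ← Finset.sum_add_distrib]
    apply Finset.sum_congr rfl
    intro ξ _
    rw [hst ξ]
    ring
  rw [hexp, hcross]
  linarith

/-- total weight -/
theorem qhit_total {r l : ℕ → ℝ} (h : Adm N r l) {A x0 B : ℕ} {Zs : ℝ} (h1 : A ≤ x0)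
    (h2 : x0 < B) (hB : B ≤ N)
    (hZ : ∑ z ∈ Finset.Ico A x0, RR r l z x0 + ∑ x ∈ Finset.Ico x0 B, RR r l x0 x ≤ Zs)
    (η0 : Cfg N) : ∑ ξ ∈ XW A x0 B η0, pw r l A x0 B ξ ≤ Real.exp Zs := by
  classical
  -- site weights on all sites
  set g : ℕ → Bool → ℝ := fun i c => if A ≤ i ∧ i < B then qhit_w r l x0 i c
    else (if c = occ η0 i then 1 else 0) with hg
  have hg0 : ∀ i c, 0 ≤ g i c := by
    intro i c
    rw [hg]
    simp only
    split_ifs with h3 h4
    · unfold qhit_w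
      split_ifs
      · exact qhit_RR_nonneg h (by omega)
      · exact zero_le_one
      · exact zero_le_one
      · exact qhit_RR_nonneg h (by omega)
    · exact zero_le_one
    · exact le_rfl
  have hprod : ∀ ξ ∈ XW A x0 B η0, pw r l A x0 B ξ = ∏ i : Fin N, g i.val (ξ i) := by
    intro ξ hξ
    unfold XW at hξ
    rw [Finset.mem_filter] at hξ
    have e1 : ∏ i : Fin N, g i.val (ξ i) = ∏ i ∈ Finset.range N, g i (occ ξ i) := by
      rw [Finset.prod_range]
      apply Finset.prod_congr rfl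
      intro i _
      rw [occ_fin]
    rw [e1, Finset.range_eq_Ico,
      ← Finset.prod_Ico_consecutive _ (Nat.zero_le A) (show A ≤ N by omega),
      ← Finset.prod_Ico_consecutive _ (show A ≤ B by omega) hB]
    have e2 : ∏ i ∈ Finset.Ico 0 A, g i (occ ξ i) = 1 := by
      apply Finset.prod_eq_one
      intro i hi
      rw [Finset.mem_Ico] at hi
      rw [hg]
      simp only
      rw [if_neg (by omega), if_pos (hξ.2.2 i (Finset.mem_range.2 (by omega)) (Or.inl hi.2))]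
    have e3 : ∏ i ∈ Finset.Ico B N, g i (occ ξ i) = 1 := by
      apply Finset.prod_eq_one
      intro i hi
      rw [Finset.mem_Ico] at hi
      rw [hg]
      simp only
      rw [if_neg (by omega), if_pos (hξ.2.2 i (Finset.mem_range.2 (by omega)) (Or.inr hi.1))]
    rw [e2, e3, one_mul, mul_one, qhit_pw r l h1 h2.le]
    apply Finset.prod_congr rfl
    intro i hi
    rw [Finset.mem_Ico] at hi
    rw [hg]
    simp only
    rw [if_pos hi]
  have hsum : ∑ ξ : Cfg N, ∏ i : Fin N, g i.val (ξ i) = ∏ i : Fin N, ∑ c : Bool, g i.val c := by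
    rw [Finset.prod_univ_sum, Fintype.piFinset_univ]
  have hle : ∑ ξ ∈ XW A x0 B η0, pw r l A x0 B ξ ≤ ∏ i : Fin N, ∑ c : Bool, g i.val c := by
    rw [← hsum, Finset.sum_congr rfl hprod]
    apply Finset.sum_le_sum_of_subset_of_nonneg (Finset.subset_univ _)
    intro ξ _ _
    exact Finset.prod_nonneg fun i _ => hg0 _ _
  refine hle.trans ?_
  have e1 : ∏ i : Fin N, ∑ c : Bool, g i.val c = ∏ i ∈ Finset.range N, ∑ c : Bool, g i c := by
    rw [Finset.prod_range]
  rw [e1, Finset.range_eq_Ico,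
      ← Finset.prod_Ico_consecutive _ (Nat.zero_le A) (show A ≤ N by omega),
      ← Finset.prod_Ico_consecutive _ (show A ≤ B by omega) hB,
      ← Finset.prod_Ico_consecutive _ h1 h2.le]
  have e2 : ∏ i ∈ Finset.Ico 0 A, ∑ c : Bool, g i c = 1 := by
    apply Finset.prod_eq_one
    intro i hi
    rw [Finset.mem_Ico] at hi
    have hn : ¬ (A ≤ i ∧ i < B) := by omega
    rw [hg]
    simp only [if_neg hn]
    rw [Fintype.sum_bool]
    rcases occ η0 i <;> simp
  have e3 : ∏ i ∈ Finset.Ico B N, ∑ c : Bool, g i c = 1 := by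
    apply Finset.prod_eq_one
    intro i hi
    rw [Finset.mem_Ico] at hi
    have hn : ¬ (A ≤ i ∧ i < B) := by omega
    rw [hg]
    simp only [if_neg hn]
    rw [Fintype.sum_bool]
    rcases occ η0 i <;> simp
  have e4 : ∏ i ∈ Finset.Ico A x0, ∑ c : Bool, g i c ≤
      Real.exp (∑ z ∈ Finset.Ico A x0, RR r l z x0) := by
    rw [Real.exp_sum]
    apply Finset.prod_le_prod
    · intro i _
      exact Finset.sum_nonneg fun c _ => hg0 _ _
    · intro i hi
      rw [Finset.mem_Ico] at hi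
      have : ∑ c : Bool, g i c = RR r l i x0 + 1 := by
        rw [hg]
        simp only
        have hn : A ≤ i ∧ i < B := by omega
        simp only [if_pos hn]
        rw [Fintype.sum_bool]
        unfold qhit_w
        rw [if_pos hi.2, if_pos hi.2]
        simp
      rw [this]
      exact Real.add_one_le_exp _
  have e5 : ∏ i ∈ Finset.Ico x0 B, ∑ c : Bool, g i c ≤
      Real.exp (∑ z ∈ Finset.Ico x0 B, RR r l x0 z) := by
    rw [Real.exp_sum]
    apply Finset.prod_le_prod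
    · intro i _
      exact Finset.sum_nonneg fun c _ => hg0 _ _
    · intro i hi
      rw [Finset.mem_Ico] at hi
      have : ∑ c : Bool, g i c = RR r l x0 i + 1 := by
        rw [hg]
        simp only
        have hn : A ≤ i ∧ i < B := by omega
        have hn2 : ¬ i < x0 := by omega
        simp only [if_pos hn]
        rw [Fintype.sum_bool]
        unfold qhit_w
        rw [if_neg hn2, if_neg hn2]
        simp [add_comm]
      rw [this]
      exact Real.add_one_le_exp _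
  rw [e2, e3, one_mul, mul_one]
  calc (∏ i ∈ Finset.Ico A x0, ∑ c : Bool, g i c) * ∏ i ∈ Finset.Ico x0 B, ∑ c : Bool, g i c
      ≤ Real.exp (∑ z ∈ Finset.Ico A x0, RR r l z x0) *
        Real.exp (∑ z ∈ Finset.Ico x0 B, RR r l x0 z) :=
        mul_le_mul e4 e5 (Finset.prod_nonneg fun i _ => Finset.sum_nonneg fun c _ => hg0 _ _)
          (Real.exp_pos _).le
    _ = Real.exp (∑ z ∈ Finset.Ico A x0, RR r l z x0 +
        ∑ z ∈ Finset.Ico x0 B, RR r l x0 z) := by rw [Real.exp_add]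
    _ ≤ Real.exp Zs := Real.exp_le_exp.2 hZ

/-- lower bound for the weights -/
theorem qhit_lower {r l : ℕ → ℝ} (h : Adm N r l) {A x0 B : ℕ} {lmin : ℝ} (h1 : A ≤ x0)
    (h2 : x0 < B) (hB : B ≤ N) (hl0 : 0 < lmin) (hl1 : lmin ≤ 1)
    (hl : ∀ b, A < b → b < B → lmin ≤ l b) (ξ : Cfg N) :
    Real.exp (-(((B : ℝ) - A) ^ 2 * Real.log (1 / lmin))) ≤ pw r l A x0 B ξ := by
  have hRR : ∀ z x, A ≤ z → z ≤ x → x < B → lmin ^ (B - A) ≤ RR r l z x := by
    intro z x hz hzx hx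
    have e1 : lmin ^ (B - A) ≤ lmin ^ (Finset.Ioc z x).card := by
      apply pow_le_pow_of_le_one hl0.le hl1
      rw [Nat.card_Ioc]
      omega
    refine e1.trans ?_
    rw [← Finset.prod_const]
    unfold RR
    apply Finset.prod_le_prod
    · intro b _
      exact hl0.le
    · intro b hb
      rw [Finset.mem_Ioc] at hb
      obtain ⟨a1, a2, a3, a4⟩ := h b (by omega) (by omega)
      have a5 := hl b (by omega) (by omega)
      rw [le_div_iff₀ a1]
      nlinarith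
  have hone : lmin ^ (B - A) ≤ 1 := pow_le_one₀ hl0.le hl1
  have e1 : (lmin ^ (B - A)) ^ (B - A) ≤ pw r l A x0 B ξ := by
    rw [qhit_pw r l h1 h2.le]
    have e2 : (lmin ^ (B - A)) ^ (B - A) = ∏ _i ∈ Finset.Ico A B, lmin ^ (B - A) := by
      rw [Finset.prod_const, Nat.card_Ico]
    rw [e2]
    apply Finset.prod_le_prod
    · intro i _
      positivity
    · intro i hi
      rw [Finset.mem_Ico] at hi
      unfold qhit_w
      split_ifs
      · exact hRR _ _ hi.1 (by omega) h2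
      · exact hone
      · exact hone
      · exact hRR _ _ h1 (by omega) hi.2
  refine le_trans (le_of_eq ?_) e1
  have e3 : Real.log (1 / lmin) = - Real.log lmin := by
    rw [one_div, Real.log_inv]
  have e4 : ((B : ℝ) - A) = ((B - A : ℕ) : ℝ) := by
    rw [Nat.cast_sub (by omega)]
  rw [e3, e4]
  have e5 : -((((B - A : ℕ) : ℝ)) ^ 2 * -Real.log lmin) =
      (((B - A) * (B - A) : ℕ) : ℝ) * Real.log lmin := by
    push_cast
    ring
  rw [e5, Real.exp_nat_mul, Real.exp_log hl0, pow_mul]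

theorem qhit_nohit_mem (r l : ℕ → ℝ) (S : Finset ℕ) (T : Set (Cfg N)) (m : ℕ) {ξ : Cfg N}
    (h : ξ ∈ T) : nohit r l S T m ξ = 0 := by
  cases m with
  | zero =>
    show 1 - ind T ξ = 0
    rw [ind_of_mem h]
    ring
  | succ m =>
    show (1 - ind T ξ) * _ = 0
    rw [ind_of_mem h]
    ring

end qhit

theorem st_QHIT (hP : ST_QPOIN) : ST_QHIT := by
  intro N r l A x0 B m D rmin lmin Zs η hA hPos h1 h2 hAB hB hr0 hl0 hl1 hb hD hRR hZ hcnt
  by_cases hη : η ∈ (sorted A x0 x0 B : Set (Cfg N))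
  · rw [qhit_nohit_mem r l _ _ m hη]
    exact (Real.exp_pos _).le
  -- then `x0 < B`
  have hx0B : x0 < B := by
    by_contra hx
    have hx' : x0 = B := by omega
    apply hη
    refine ⟨?_, ?_⟩
    · intro i hi1 hi2
      by_contra ho
      have ho' : occ η i = true := by simpa using ho
      have : cnt η A B = 0 := by rw [hcnt]; omega
      unfold cnt at this
      rw [Finset.sum_eq_zero_iff] at this
      have h3 := this i (Finset.mem_Ico.2 ⟨hi1, by omega⟩)
      rw [if_pos ho'] at h3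
      exact absurd h3 one_ne_zero
    · intro i hi1 hi2
      omega
  have hN : (0 : ℝ) < N := by
    have : 0 < N := by omega
    exact_mod_cast this
  have hW : (0 : ℝ) < (B : ℝ) - A := by
    have : (A : ℝ) < B := by exact_mod_cast hAB
    linarith
  set CP : ℝ := 8 * ((B : ℝ) - A) ^ 4 * D ^ 2 * Real.exp Zs * (2 * N) / rmin with hCP
  have hD0 : 0 < D := by linarith
  have hCP0 : 0 < CP := by
    rw [hCP]
    positivity
  set T : Set (Cfg N) := sorted A x0 x0 B with hT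
  set v : ℕ → Cfg N → ℝ := nohit r l (Finset.Ioo A B) T with hv
  set nm : ℕ → ℝ := fun k => ∑ ξ ∈ XW A x0 B η, pw r l A x0 B ξ * v k ξ ^ 2 with hnm
  have hnm0 : ∀ k, 0 ≤ nm k := by
    intro k
    apply Finset.sum_nonneg
    intro ξ _
    exact mul_nonneg (qhit_pw_nonneg hA h1 hx0B hB ξ) (sq_nonneg _)
  have hstep : ∀ k, nm (k + 1) ≤ nm k * Real.exp (-(1 / CP)) := by
    intro k
    have e1 : nm (k + 1) ≤ ∑ ξ ∈ XW A x0 B η, pw r l A x0 B ξ *
        stp r l (Finset.Ioo A B) (v k) ξ ^ 2 := by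
      apply Finset.sum_le_sum
      intro ξ _
      apply mul_le_mul_of_nonneg_left _ (qhit_pw_nonneg hA h1 hx0B hB ξ)
      show ((1 - ind T ξ) * stp r l (Finset.Ioo A B) (v k) ξ) ^ 2 ≤ _
      rw [mul_pow]
      have a1 := ind_nonneg T ξ
      have a2 := ind_le_one T ξ
      have a3 : (1 - ind T ξ) ^ 2 ≤ 1 := by nlinarith
      nlinarith [sq_nonneg (stp r l (Finset.Ioo A B) (v k) ξ)]
    have e2 := qhit_step hA h1 hx0B hB η (v k)
    have e3 := hP N r l A x0 B D rmin Zs η (v k) hA hPos h1 h2 hAB hB hr0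
      (fun b hb1 hb2 => (hb b hb1 hb2).1) hD hRR hZ
      (fun ξ hξ => qhit_nohit_mem r l _ _ k hξ)
    set E := ∑ ξ ∈ XW A x0 B η, ∑ b ∈ Finset.Ioo A B,
        pw r l A x0 B ξ * (r b / (2 * N)) * (v k (Rm b ξ) - v k ξ) ^ 2 with hE
    have e4 : nm k ≤ CP * E := e3
    have e5 : nm k / CP ≤ E := by
      rw [div_le_iff₀ hCP0]
      linarith
    have e6 : nm (k + 1) ≤ nm k * (1 - 1 / CP) := by
      have : nm k * (1 - 1 / CP) = nm k - nm k / CP := by ring
      rw [this]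
      have e7 : nm (k + 1) ≤ nm k - E := e1.trans e2
      linarith
    refine e6.trans ?_
    apply mul_le_mul_of_nonneg_left _ (hnm0 k)
    have := Real.add_one_le_exp (-(1 / CP))
    linarith
  have hbase : nm 0 ≤ Real.exp Zs := by
    refine le_trans ?_ (qhit_total hA h1 hx0B hB hZ η)
    apply Finset.sum_le_sum
    intro ξ _
    have a1 : v 0 ξ = 1 - ind T ξ := rfl
    have a2 := ind_nonneg T ξ
    have a3 := ind_le_one T ξ
    have a4 : v 0 ξ ^ 2 ≤ 1 := by
      rw [a1]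
      nlinarith
    have a5 := qhit_pw_nonneg hA h1 hx0B hB ξ
    nlinarith
  have hall : ∀ k : ℕ, nm k ≤ Real.exp (Zs - k / CP) := by
    intro k
    induction k with
    | zero => simpa using hbase
    | succ k ih =>
      refine (hstep k).trans ?_
      calc nm k * Real.exp (-(1 / CP)) ≤ Real.exp (Zs - k / CP) * Real.exp (-(1 / CP)) :=
            mul_le_mul_of_nonneg_right ih (Real.exp_pos _).le
        _ = Real.exp (Zs - (k + 1 : ℕ) / CP) := by
            rw [← Real.exp_add]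
            congr 1
            push_cast
            ring
  have hmem : η ∈ XW A x0 B η := by
    unfold XW
    rw [Finset.mem_filter]
    exact ⟨Finset.mem_univ _, hcnt, fun _ _ _ => rfl⟩
  have hpt : pw r l A x0 B η * v m η ^ 2 ≤ Real.exp (Zs - m / CP) := by
    refine le_trans ?_ (hall m)
    exact Finset.single_le_sum (f := fun ξ => pw r l A x0 B ξ * v m ξ ^ 2)
      (fun ξ _ => mul_nonneg (qhit_pw_nonneg hA h1 hx0B hB ξ) (sq_nonneg _)) hmem
  have hlow := qhit_lower hA h1 hx0B hB hl0 hl1 (fun b hb1 hb2 => (hb b hb1 hb2).2) η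
  set L : ℝ := ((B : ℝ) - A) ^ 2 * Real.log (1 / lmin) with hL
  have hL0 : 0 ≤ L := by
    rw [hL]
    apply mul_nonneg (sq_nonneg _)
    apply Real.log_nonneg
    rw [le_div_iff₀ hl0]
    linarith
  have hZs0 : 0 ≤ Zs := by
    refine le_trans ?_ hZ
    apply add_nonneg
    · exact Finset.sum_nonneg fun z hz => qhit_RR_nonneg hA (by omega)
    · apply Finset.sum_nonneg
      intro x hx
      rw [Finset.mem_Ico] at hx
      exact qhit_RR_nonneg hA (by omega)
  have hsq : v m η ^ 2 ≤ Real.exp (Zs + L - m / (2 * CP)) ^ 2 := by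
    have e1 : Real.exp (-L) * v m η ^ 2 ≤ Real.exp (Zs - m / CP) :=
      (mul_le_mul_of_nonneg_right hlow (sq_nonneg _)).trans hpt
    have e2 : v m η ^ 2 = Real.exp L * (Real.exp (-L) * v m η ^ 2) := by
      rw [← mul_assoc, ← Real.exp_add]
      simp
    rw [e2]
    calc Real.exp L * (Real.exp (-L) * v m η ^ 2) ≤ Real.exp L * Real.exp (Zs - m / CP) :=
          mul_le_mul_of_nonneg_left e1 (Real.exp_pos _).le
      _ = Real.exp (L + (Zs - m / CP)) := by rw [← Real.exp_add]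
      _ ≤ Real.exp (Zs + L - m / (2 * CP) + (Zs + L - m / (2 * CP))) := by
          apply Real.exp_le_exp.2
          have : (m : ℝ) / (2 * CP) + m / (2 * CP) = m / CP := by
            field_simp
            ring
          linarith
      _ = Real.exp (Zs + L - m / (2 * CP)) ^ 2 := by
          rw [Real.exp_add, sq]
  have hfin : v m η ≤ Real.exp (Zs + L - m / (2 * CP)) := by
    have := abs_le_of_sq_le_sq hsq (Real.exp_pos _).le
    exact (le_abs_self _).trans this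
  refine hfin.trans (le_of_eq ?_)
  congr 1
  have : (m : ℝ) / (2 * CP) =
      m * rmin / (2 * N * (16 * ((B : ℝ) - A) ^ 4 * D ^ 2 * Real.exp Zs)) := by
    rw [hCP]
    have := (Real.exp_pos Zs).ne'
    field_simp
    ring
  rw [this]

end Pool.Agent.Helper98.EX
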