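import Pool.Agent.Helper98.EX.Stmts2

/-!
# ex_mods.TRAPLOW: lower bound on the time from a trap
-/

namespace Pool.Agent.Helper98.EX

open Finset

theorem traplow_RR_mul (r l : ℕ → ℝ) {A y B : ℕ} (h1 : A ≤ y) (h2 : y ≤ B) :
    RR r l A y * RR r l y B = RR r l A B := by
  unfold RR
  exact Finset.prod_Ioc_consecutive _ h1 h2

theorem traplow_log (c1 : ℝ) (h : 0 < c1) : ∃ N2 : ℕ, ∀ N : ℕ, N2 ≤ N →
    Real.log N ^ 2 ≤ c1 * N := by
  have h1 : ∀ᶠ x : ℝ in Filter.atTop, ‖Real.log x ^ 2‖ ≤ c1 * ‖id x‖ :=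
    (Real.isLittleO_pow_log_id_atTop (n := 2)).def h
  have h2 := tendsto_natCast_atTop_atTop.eventually h1
  rw [Filter.eventually_atTop] at h2
  obtain ⟨N2, hN2⟩ := h2
  refine ⟨N2, fun N hN => ?_⟩
  have h3 := hN2 N hN
  rw [Real.norm_of_nonneg (sq_nonneg _), id, Real.norm_of_nonneg (Nat.cast_nonneg N)] at h3
  exact h3

theorem st_TRAPLOW (hE : ST_EPOCH) (hG : ST_GAIN) : ST_TRAPLOW := by
  intro ε c c2 m0 hε hc hc2
  obtain ⟨c1, N1, hc1, hgain⟩ := hG ε c c2 m0 hε hc hc2
  obtain ⟨N2, hN2⟩ := traplow_log (c1 / 2) (half_pos hc1)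
  refine ⟨c1 / 2, max (max N1 N2) 3, half_pos hc1, ?_⟩
  intro N k r l m1 A B w a hN hk1 hk2 hAdm hA hAB hBw hB hw ha hor hpr
  have hNN1 : N1 ≤ N := (le_max_left _ _).trans ((le_max_left _ _).trans hN)
  have hNN2 : N2 ≤ N := (le_max_right _ _).trans ((le_max_left _ _).trans hN)
  have hN3 : 3 ≤ N := (le_max_right _ _).trans hN
  have hNpos : (0 : ℝ) < N := by
    have : 0 < N := by omega
    exact_mod_cast this
  have hlog : 0 < Real.log N := by
    apply Real.log_pos
    have : (3 : ℝ) ≤ N := by exact_mod_cast hN3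
    linarith
  have hc2N : 0 < c2 * N := mul_pos hc2 hNpos
  have hA1 : 1 ≤ A := by
    have : (0 : ℝ) < A := lt_of_lt_of_le hc2N hA
    have : 0 < A := by exact_mod_cast this
    omega
  have hBN : B + 1 < N := by
    have : (B : ℝ) + 1 < N := by nlinarith
    exact_mod_cast this
  have hrA := hAdm A hA1 (by omega)
  have hrB := hAdm (B + 1) (by omega) hBN
  have hRR0 : ∀ z x, x < N → 0 ≤ RR r l z x := by
    intro z x hx
    unfold RR
    apply Finset.prod_nonneg
    intro b hb
    rw [Finset.mem_Ioc] at hb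
    obtain ⟨a1, _, a3, _⟩ := hAdm b (by omega) (by omega)
    exact div_nonneg a3 a1.le
  have hRRpos : 0 < RR r l A B := by
    have h0 := hRR0 A B (by omega)
    rcases h0.lt_or_eq with h | h
    · exact h
    · exfalso
      rcases hor with h1 | h1
      · rw [← h, zero_div] at h1
        linarith
      · rw [← h, zero_div] at h1
        linarith
  have hlpos : ∀ b, A < b → b ≤ B → 0 < l b := by
    intro b hb1 hb2
    obtain ⟨a1, _, a3, _⟩ := hAdm b (by omega) (by omega)
    rcases a3.lt_or_eq with h | h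
    · exact h
    · exfalso
      have : RR r l A B = 0 := by
        unfold RR
        apply Finset.prod_eq_zero (Finset.mem_Ioc.2 ⟨hb1, hb2⟩)
        rw [← h, zero_div]
      linarith
  have hRRp : ∀ z x, A ≤ z → x ≤ B → 0 < RR r l z x := by
    intro z x hz hx
    unfold RR
    apply Finset.prod_pos
    intro b hb
    rw [Finset.mem_Ioc] at hb
    exact div_pos (hlpos b (by omega) (by omega)) (hAdm b (by omega) (by omega)).1
  have hsa : 0 < Real.sqrt a := Real.sqrt_pos.2 ha
  -- a set of sites for which all terms are at most `1 / sqrt a`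
  have key : ∃ G : Finset ℕ, G ⊆ Finset.Icc A B ∧
      (∀ y ∈ G, r (B + 1) / RR r l y B ≤ 1 / Real.sqrt a) ∧
      (∀ x ∈ Finset.Icc A B \ G, r A / RR r l A x ≤ 1 / Real.sqrt a) := by
    classical
    rcases hor with h1 | h1
    · set a' := RR r l A B / r (B + 1) with ha'
      have ha'0 : 0 < a' := div_pos hRRpos hrB.1
      have hs' : 0 < Real.sqrt a' := Real.sqrt_pos.2 ha'0
      have hss : Real.sqrt a ≤ Real.sqrt a' := Real.sqrt_le_sqrt h1
      have hle : 1 / Real.sqrt a' ≤ 1 / Real.sqrt a := one_div_le_one_div_of_le hsa hss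
      refine ⟨(Finset.Icc A B).filter fun y => RR r l A y ≤ Real.sqrt a',
        Finset.filter_subset _ _, ?_, ?_⟩
      · intro y hy
        rw [Finset.mem_filter, Finset.mem_Icc] at hy
        refine le_trans ?_ hle
        have e1 := traplow_RR_mul r l hy.1.1 hy.1.2
        have p1 := hRRp A y le_rfl hy.1.2
        have p2 := hRRp y B hy.1.1 le_rfl
        have e2 : r (B + 1) / RR r l y B = RR r l A y / a' := by
          rw [ha', ← e1]
          have := hrB.1.ne'
          field_simp
        rw [e2, div_le_div_iff₀ ha'0 hs', one_mul]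
        calc RR r l A y * Real.sqrt a' ≤ Real.sqrt a' * Real.sqrt a' :=
              mul_le_mul_of_nonneg_right hy.2 hs'.le
          _ = a' := Real.mul_self_sqrt ha'0.le
      · intro x hx
        rw [Finset.mem_sdiff, Finset.mem_filter, Finset.mem_Icc] at hx
        have hx2 : Real.sqrt a' < RR r l A x := by
          by_contra h
          exact hx.2 ⟨hx.1, not_lt.1 h⟩
        refine le_trans ?_ hle
        calc r A / RR r l A x ≤ 1 / RR r l A x := by
              apply div_le_div_of_nonneg_right hrA.2.1 (hs'.trans hx2).le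
          _ ≤ 1 / Real.sqrt a' := one_div_le_one_div_of_le hs' hx2.le
    · set a' := RR r l A B / r A with ha'
      have ha'0 : 0 < a' := div_pos hRRpos hrA.1
      have hs' : 0 < Real.sqrt a' := Real.sqrt_pos.2 ha'0
      have hss : Real.sqrt a ≤ Real.sqrt a' := Real.sqrt_le_sqrt h1
      have hle : 1 / Real.sqrt a' ≤ 1 / Real.sqrt a := one_div_le_one_div_of_le hsa hss
      refine ⟨(Finset.Icc A B).filter fun y => RR r l A y / r A ≤ Real.sqrt a',
        Finset.filter_subset _ _, ?_, ?_⟩
      · intro y hy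
        rw [Finset.mem_filter, Finset.mem_Icc] at hy
        refine le_trans ?_ hle
        have e1 := traplow_RR_mul r l hy.1.1 hy.1.2
        have p1 := hRRp A y le_rfl hy.1.2
        have p2 := hRRp y B hy.1.1 le_rfl
        have e2 : 1 / RR r l y B = (RR r l A y / r A) / a' := by
          rw [ha', ← e1]
          have := hrA.1.ne'
          field_simp
        have e3 : r (B + 1) / RR r l y B ≤ 1 / RR r l y B :=
          div_le_div_of_nonneg_right hrB.2.1 p2.le
        refine e3.trans ?_
        rw [e2, div_le_div_iff₀ ha'0 hs', one_mul]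
        calc RR r l A y / r A * Real.sqrt a' ≤ Real.sqrt a' * Real.sqrt a' :=
              mul_le_mul_of_nonneg_right hy.2 hs'.le
          _ = a' := Real.mul_self_sqrt ha'0.le
      · intro x hx
        rw [Finset.mem_sdiff, Finset.mem_filter, Finset.mem_Icc] at hx
        have hx2 : Real.sqrt a' < RR r l A x / r A := by
          by_contra h
          exact hx.2 ⟨hx.1, not_lt.1 h⟩
        refine le_trans ?_ hle
        have p1 := hRRp A x le_rfl hx.1.2
        have e2 : r A / RR r l A x = 1 / (RR r l A x / r A) := by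
          have := hrA.1.ne'
          field_simp
        rw [e2]
        exact one_div_le_one_div_of_le hs' hx2.le
  obtain ⟨G, hG1, hG2, hG3⟩ := key
  have hep := hE N r l A B m1 G (bot N k) hAdm hA1 hAB hBN hG1 hlpos
  have hga := hgain N k r l m1 (B + 1) hNN1 hk1 hk2 hAdm
    (by push_cast; have : (A : ℝ) ≤ B := by exact_mod_cast hAB
        linarith) (by push_cast; exact hB) hpr
  have hwl : ((B : ℝ) + 1 - A) ≤ Real.log N ^ 2 := by
    have : (B : ℝ) + 1 ≤ A + w := by exact_mod_cast hBw
    linarith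
  have hcard : ((Finset.Icc A B).card : ℝ) = (B : ℝ) + 1 - A := by
    rw [Nat.card_Icc, Nat.cast_sub (by omega)]
    push_cast
    ring
  have hkap : ∑ y ∈ G, r (B + 1) / RR r l y B + ∑ x ∈ Finset.Icc A B \ G, r A / RR r l A x ≤
      Real.log N ^ 2 / Real.sqrt a := by
    have e1 : ∑ y ∈ G, r (B + 1) / RR r l y B ≤ G.card * (1 / Real.sqrt a) := by
      rw [← nsmul_eq_mul]
      exact Finset.sum_le_card_nsmul _ _ _ hG2
    have e2 : ∑ x ∈ Finset.Icc A B \ G, r A / RR r l A x ≤
        (Finset.Icc A B \ G).card * (1 / Real.sqrt a) := by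
      rw [← nsmul_eq_mul]
      exact Finset.sum_le_card_nsmul _ _ _ hG3
    have e3 : (G.card : ℝ) + (Finset.Icc A B \ G).card = (Finset.Icc A B).card := by
      have := Finset.card_sdiff_add_card_eq_card hG1
      have h' : ((Finset.Icc A B \ G).card : ℝ) + G.card = (Finset.Icc A B).card := by
        exact_mod_cast this
      linarith
    calc _ ≤ G.card * (1 / Real.sqrt a) + (Finset.Icc A B \ G).card * (1 / Real.sqrt a) :=
          add_le_add e1 e2
      _ = ((G.card : ℝ) + (Finset.Icc A B \ G).card) * (1 / Real.sqrt a) := by ring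
      _ = ((B : ℝ) + 1 - A) * (1 / Real.sqrt a) := by rw [e3, hcard]
      _ ≤ Real.log N ^ 2 * (1 / Real.sqrt a) :=
          mul_le_mul_of_nonneg_right hwl (by positivity)
      _ = Real.log N ^ 2 / Real.sqrt a := by ring
  have hT : 0 ≤ (m1 : ℝ) / (2 * N) := by positivity
  have hmain : c1 * N ≤ Real.log N ^ 2 +
      (m1 : ℝ) / (2 * N) * (Real.log N ^ 2 / Real.sqrt a) := by
    have := mul_le_mul_of_nonneg_left hkap hT
    linarith
  have h2 := hN2 N hNN2
  have h3 : c1 / 2 * N ≤ (m1 : ℝ) / (2 * N) * (Real.log N ^ 2 / Real.sqrt a) := by linarith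
  have hL : 0 < Real.log N ^ 2 := by positivity
  rw [div_le_iff₀ hL]
  calc c1 / 2 * N * Real.sqrt a ≤
        (m1 : ℝ) / (2 * N) * (Real.log N ^ 2 / Real.sqrt a) * Real.sqrt a :=
        mul_le_mul_of_nonneg_right h3 hsa.le
    _ = (m1 : ℝ) / (2 * N) * Real.log N ^ 2 := by
        field_simp

end Pool.Agent.Helper98.EX
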